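import Mathlib
import Pool.Agent.N11.TVK.Main

/-!
# MP_a73a08_co: every finite simplicial complex is `d`-Tverberg for all large `d`

Every finite (nonempty) simplicial complex `K` with `F` facets is `d`-Tverberg for every
`d ≥ 1` with `d ≥ F - 1`.  In particular there is no finite simplicial complex which is
`d`-Tverberg for no `d`.
-/

set_option autoImplicit false

namespace Pool.Agent.Results.MP_a73a08_co.EveryComplexTverberg

/-- General position in `ℝ^d`: no `d + 1` points of `S` lie on a common affine hyperplane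
`{p | ⟨a, p⟩ = c}`, `a ≠ 0`. -/
def GenPos {d : ℕ} (S : Finset (EuclideanSpace ℝ (Fin d))) : Prop :=
  ∀ (a : EuclideanSpace ℝ (Fin d)) (c : ℝ), a ≠ 0 →
    ∀ T : Finset (EuclideanSpace ℝ (Fin d)), T ⊆ S → T.card = d + 1 → ∃ p ∈ T, inner ℝ a p ≠ c

/-- The class with label `i` of the partition of `S` given by the labelling `P`. -/
def cls {d : ℕ} {V : Type*} (S : Finset (EuclideanSpace ℝ (Fin d)))
    (P : EuclideanSpace ℝ (Fin d) → V) (i : V) : Set (EuclideanSpace ℝ (Fin d)) :=
  {p | p ∈ S ∧ P p = i}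

/-- All the classes of the partition are nonempty and the nerve of their convex hulls is `K`:
a nonempty set `I` of labels is a face of `K` if and only if the hulls of the classes with
labels in `I` have a common point. -/
def NerveIs {d : ℕ} {V : Type*} (K : AbstractSimplicialComplex V)
    (S : Finset (EuclideanSpace ℝ (Fin d))) (P : EuclideanSpace ℝ (Fin d) → V) : Prop :=
  (∀ i, (cls S P i).Nonempty) ∧
    ∀ I : Finset V, I.Nonempty →
      (I ∈ K.faces ↔ (⋂ i ∈ I, convexHull ℝ (cls S P i)).Nonempty)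

/-- `K` is `d`-Tverberg. -/
def IsTverberg {V : Type*} (d : ℕ) (K : AbstractSimplicialComplex V) : Prop :=
  ∃ N : ℕ, ∀ S : Finset (EuclideanSpace ℝ (Fin d)), GenPos S → N < S.card →
    ∃ P : EuclideanSpace ℝ (Fin d) → V, NerveIs K S P

/-- The facets (maximal faces) of `K`. -/
def facets {V : Type*} (K : AbstractSimplicialComplex V) : Set (Finset V) :=
  {σ | σ ∈ K.faces ∧ ∀ τ ∈ K.faces, σ ⊆ τ → τ = σ}

theorem result {V : Type*} [Fintype V] [Nonempty V] (K : AbstractSimplicialComplex V) :
    (∃ d : ℕ, 1 ≤ d ∧ IsTverberg d K) ∧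
    ∀ d : ℕ, 1 ≤ d → (facets K).ncard ≤ d + 1 → IsTverberg d K := by
  have h : ∀ d : ℕ, (facets K).ncard ≤ d + 1 → IsTverberg d K :=
    fun d hd => Pool.Agent.N11.TVK.main K d hd
  exact ⟨⟨(facets K).ncard + 1, by omega, h _ (by omega)⟩, fun d _ hd => h d hd⟩

end Pool.Agent.Results.MP_a73a08_co.EveryComplexTverberg
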